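import Pool.Agent.H174.GP.StP

set_option autoImplicit false

/-! Project GP (helper174): the maximal inequality of Lévy. -/

open MeasureTheory ProbabilityTheory Finset

namespace Pool.Agent.H764.GP174

open Pool.Agent.H174.GP

/-- flip the signs of the coordinates after `l` -/
def flip (l : ℕ) (ω : ℕ → ℝ) : ℕ → ℝ := fun j => if j ≤ l then ω j else -ω j

theorem flip_meas (l : ℕ) : Measurable (flip l) := by
  refine measurable_pi_lambda _ fun j => ?_
  unfold flip
  by_cases h : j ≤ l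
  · simp only [h, if_true]
    exact measurable_pi_apply j
  · simp only [h, if_false]
    exact (measurable_pi_apply j).neg

theorem flip_map (h1 : Measure.map (fun x : ℝ => -x) lap = lap) (l : ℕ) :
    Measure.map (flip l) PP = PP := by
  unfold PP
  have h2 : ∀ j : ℕ, Measurable (fun x : ℝ => if j ≤ l then x else -x) := by
    intro j
    by_cases h : j ≤ l
    · simp only [h, if_true]
      exact measurable_id
    · simp only [h, if_false]
      exact measurable_neg
  have h3 := Measure.infinitePi_map_pi (μ := fun _ : ℕ => lap)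
    (f := fun (j : ℕ) (x : ℝ) => if j ≤ l then x else -x) h2
  have h4 : (fun (x : ℕ → ℝ) (i : ℕ) => (fun (j : ℕ) (x : ℝ) => if j ≤ l then x else -x) i (x i)) =
      flip l := rfl
  rw [← h4, h3]
  congr 1
  funext j
  by_cases h : j ≤ l
  · simp only [h, if_true]
    exact Measure.map_id
  · simp only [h, if_false]
    exact h1

theorem gp_levy (h1 : S_L3) : Pool.Agent.H174.GP.S_levy := by
  classical
  intro a b φ t hab hm ho
  obtain ⟨Sf, hSf⟩ : ∃ Sf : ℕ → (ℕ → ℝ) → ℝ, Sf = fun l ω => ∑ j ∈ Finset.Ioc a l, φ j (ω j) :=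
    ⟨_, rfl⟩
  have hS : ∀ l ω, Sf l ω = ∑ j ∈ Finset.Ioc a l, φ j (ω j) := fun l ω => by rw [hSf]
  have hSm : ∀ l, l ≤ b → Measurable (Sf l) := by
    intro l hl
    rw [hSf]
    refine Finset.measurable_sum _ fun j hj => ?_
    have hj' := Finset.mem_Ioc.1 hj
    exact (hm j (Finset.mem_Ioc.2 ⟨hj'.1, hj'.2.trans hl⟩)).comp (measurable_pi_apply j)
  obtain ⟨A, hA⟩ : ∃ A : ℕ → Set (ℕ → ℝ), A = fun l =>
      {ω | t ≤ |Sf l ω| ∧ ∀ l' ∈ Finset.Ico a l, |Sf l' ω| < t} := ⟨_, rfl⟩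
  have hAmem : ∀ l ω, ω ∈ A l ↔ (t ≤ |Sf l ω| ∧ ∀ l' ∈ Finset.Ico a l, |Sf l' ω| < t) := by
    intro l ω
    rw [hA]
    rfl
  obtain ⟨B, hB⟩ : ∃ B : Set (ℕ → ℝ), B = {ω | t ≤ |Sf b ω|} := ⟨_, rfl⟩
  have hBmem : ∀ ω, ω ∈ B ↔ t ≤ |Sf b ω| := by
    intro ω
    rw [hB]
    rfl
  have hBm : MeasurableSet B := by
    rw [hB]
    exact measurableSet_le measurable_const ((hSm b le_rfl).abs)
  have hAm : ∀ l, l ≤ b → MeasurableSet (A l) := by
    intro l hl
    have e : A l = {ω | t ≤ |Sf l ω|} ∩ ⋂ l' ∈ Finset.Ico a l, {ω | |Sf l' ω| < t} := by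
      ext ω
      rw [hAmem]
      simp only [Set.mem_inter_iff, Set.mem_ofPred_eq, Set.mem_iInter]
    rw [e]
    refine (measurableSet_le measurable_const ((hSm l hl).abs)).inter ?_
    refine Finset.measurableSet_biInter _ fun l' hl' => ?_
    have := (Finset.mem_Ico.1 hl').2
    exact measurableSet_lt ((hSm l' (by omega)).abs) measurable_const
  -- flips
  have hflip1 : ∀ l l' ω, l' ≤ l → Sf l' (flip l ω) = Sf l' ω := by
    intro l l' ω hl
    rw [hS, hS]
    refine Finset.sum_congr rfl fun j hj => ?_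
    have := (Finset.mem_Ioc.1 hj).2
    unfold flip
    rw [if_pos (by omega)]
  have hflip2 : ∀ l ω, a ≤ l → l ≤ b → Sf b (flip l ω) = 2 * Sf l ω - Sf b ω := by
    intro l ω hal hlb
    have e : ∀ ω, Sf b ω = Sf l ω + ∑ j ∈ Finset.Ioc l b, φ j (ω j) := by
      intro ω
      rw [hS, hS, Finset.sum_Ioc_consecutive (fun j => φ j (ω j)) hal hlb]
    rw [e (flip l ω), hflip1 l l ω le_rfl, e ω]
    have e2 : ∑ j ∈ Finset.Ioc l b, φ j (flip l ω j) = -∑ j ∈ Finset.Ioc l b, φ j (ω j) := by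
      rw [← Finset.sum_neg_distrib]
      refine Finset.sum_congr rfl fun j hj => ?_
      have hj' := Finset.mem_Ioc.1 hj
      unfold flip
      rw [if_neg (by omega), ho j (Finset.mem_Ioc.2 ⟨by omega, hj'.2⟩)]
    rw [e2]
    ring
  have hpre : ∀ l, a ≤ l → l ≤ b → PP.real (A l) ≤ 2 * PP.real (A l ∩ B) := by
    intro l hal hlb
    have hsub : A l ⊆ (A l ∩ B) ∪ (flip l ⁻¹' (A l ∩ B)) := by
      intro ω hω
      by_cases hb : ω ∈ B
      · exact Or.inl ⟨hω, hb⟩
      · right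
        rw [hAmem] at hω
        rw [hBmem] at hb
        push Not at hb
        refine ⟨?_, ?_⟩
        · change flip l ω ∈ A l
          rw [hAmem]
          refine ⟨by rw [hflip1 l l ω le_rfl]; exact hω.1, fun l' hl' => ?_⟩
          have := (Finset.mem_Ico.1 hl').2
          rw [hflip1 l l' ω (by omega)]
          exact hω.2 l' hl'
        · change flip l ω ∈ B
          rw [hBmem, hflip2 l ω hal hlb]
          have h5 : |2 * Sf l ω| ≤ |2 * Sf l ω - Sf b ω| + |Sf b ω| := by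
            have := abs_add_le (2 * Sf l ω - Sf b ω) (Sf b ω)
            rwa [sub_add_cancel] at this
          rw [abs_mul, abs_two] at h5
          linarith [hω.1]
    have hmeas : MeasurableSet (A l ∩ B) := (hAm l hlb).inter hBm
    have hpr : PP.real (flip l ⁻¹' (A l ∩ B)) = PP.real (A l ∩ B) := by
      have := map_measureReal_apply (μ := PP) (flip_meas l) hmeas
      rw [flip_map h1.1 l] at this
      exact this.symm
    calc PP.real (A l) ≤ PP.real ((A l ∩ B) ∪ (flip l ⁻¹' (A l ∩ B))) :=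
          measureReal_mono hsub
      _ ≤ PP.real (A l ∩ B) + PP.real (flip l ⁻¹' (A l ∩ B)) := measureReal_union_le _ _
      _ = 2 * PP.real (A l ∩ B) := by rw [hpr]; ring
  have hcover : {ω | ∃ l ∈ Finset.Icc a b, t ≤ |∑ j ∈ Finset.Ioc a l, φ j (ω j)|} ⊆
      ⋃ l ∈ Finset.Icc a b, A l := by
    intro ω hω
    have hex : ∃ l, a ≤ l ∧ l ≤ b ∧ t ≤ |Sf l ω| := by
      obtain ⟨l, hl, h2⟩ := hω
      have := Finset.mem_Icc.1 hl
      exact ⟨l, this.1, this.2, by rw [hS]; exact h2⟩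
    obtain ⟨e1, e2, e3⟩ := Nat.find_spec hex
    simp only [Set.mem_iUnion]
    refine ⟨Nat.find hex, Finset.mem_Icc.2 ⟨e1, e2⟩, (hAmem _ _).2 ⟨e3, fun l' hl' => ?_⟩⟩
    have hl'' := Finset.mem_Ico.1 hl'
    by_contra hcon
    push Not at hcon
    exact Nat.find_min hex hl''.2 ⟨hl''.1, by omega, hcon⟩
  have hdisj : ∀ l l' ω, a ≤ l → l < l' → ω ∈ A l → ω ∈ A l' → False := by
    intro l l' ω hal hll h3 h4
    rw [hAmem] at h3 h4
    have := h4.2 l (Finset.mem_Ico.2 ⟨hal, hll⟩)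
    linarith [h3.1]
  have hsum : ∑ l ∈ Finset.Icc a b, PP.real (A l ∩ B) ≤ PP.real B := by
    rw [← measureReal_biUnion_finset]
    · refine measureReal_mono ?_
      intro ω hω
      simp only [Set.mem_iUnion] at hω
      obtain ⟨l, -, h2⟩ := hω
      exact h2.2
    · intro l hl l' hl' hne
      have hl1 := Finset.mem_Icc.1 (Finset.mem_coe.1 hl)
      have hl2 := Finset.mem_Icc.1 (Finset.mem_coe.1 hl')
      rw [Function.onFun, Set.disjoint_left]
      intro ω h3 h4
      rcases lt_or_gt_of_ne hne with h5 | h5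
      · exact hdisj l l' ω hl1.1 h5 h3.1 h4.1
      · exact hdisj l' l ω hl2.1 h5 h4.1 h3.1
    · intro l hl
      exact (hAm l (Finset.mem_Icc.1 hl).2).inter hBm
  have hBe : {ω : ℕ → ℝ | t ≤ |∑ j ∈ Finset.Ioc a b, φ j (ω j)|} = B := by
    ext ω
    rw [hBmem, hS]
    rfl
  rw [hBe]
  calc PP.real {ω | ∃ l ∈ Finset.Icc a b, t ≤ |∑ j ∈ Finset.Ioc a l, φ j (ω j)|} ≤
        PP.real (⋃ l ∈ Finset.Icc a b, A l) := measureReal_mono hcover (measure_ne_top _ _)
    _ ≤ ∑ l ∈ Finset.Icc a b, PP.real (A l) := measureReal_biUnion_finset_le _ _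
    _ ≤ ∑ l ∈ Finset.Icc a b, 2 * PP.real (A l ∩ B) :=
        Finset.sum_le_sum fun l hl => hpre l (Finset.mem_Icc.1 hl).1 (Finset.mem_Icc.1 hl).2
    _ = 2 * ∑ l ∈ Finset.Icc a b, PP.real (A l ∩ B) := by rw [Finset.mul_sum]
    _ ≤ 2 * PP.real B := by linarith

end Pool.Agent.H764.GP174
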